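import Pool.Agent.NSI.MBold
import Pool.Agent.NST.Win

/-!
# `P⁻` does not imply `P` over `RCA₀`

There is an `ω`-model of `RCA₀` in which `P⁻` holds and `P` fails.

`Pool/Agent/NSI/Lang.lean` defines the structures for the language of second-order arithmetic, the
`Δ⁰₀` formulas, their truth, and the axioms of `RCA₀` (basic axioms, `Σ⁰₁` induction, `Δ⁰₁`
comprehension, with number and set parameters). The definitions of positive tree, perfect tree and
sequence of distinct paths are in `Pool/Agent/PTree/Defs.lean`. `PMinus S` and `PPerf S`
(`Pool/Agent/NSI/Princ.lean`) are the principles `P⁻` and `P` in the `ω`-structure whose sets are
the members of `S`.

The model is the Turing ideal generated by a positive tree `T` and sequences `G 0, G 1, ...`. They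
are given by the continuous form of the theorem (`Bold` in `Pool/Agent/NSI/Ideal.lean`): each
positive tree computable from `T, G 0, ..., G (l - 1)` has some `G l'` as a sequence of pairwise
distinct paths, no set computable from `T, G 0, ..., G (l - 1)` is a perfect subtree of `T`.

Proof idea (`Pool/Agent/NST`). Conditions are events `F` about `(T, G 0, ..., G (l - 1))` which can
be avoided robustly for all trees `T` in a neighbourhood (`Viable`): for all levels in turn, most
tuples of first coordinates have a reservoir of positive measure for the other coordinates. If a
requirement cannot be won then the events that the perfect subtree `S = Φ (T, G)` has many nodes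
above each of its nodes of some level cannot be blocked. By induction on the number of levels one
wins a game (`PrS`) against such events: at the end there is a piece of information in all the
events and a random family of sets of nodes of small measure, half of which can be removed from `T`
while that piece of information is kept, and such that each set of nodes which branches as required
meets most members of the family. In the step one uses mixtures of laws (a tuple and independent
samples from a reservoir) whose relative entropy per sample is least up to a constant, for each
level in turn, an averaging argument (chain rule) and a one-sided form of the inequality of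
Talagrand.
-/

set_option autoImplicit false

namespace Pool.Agent.Results.MP_0b3a63_lc.OmegaModel

open Pool.Agent.NSI

/-- There is an `ω`-model of `RCA₀ + P⁻` in which `P` fails. -/
theorem result : ∃ S : Set (Set ℕ), RCA0 (omega S) ∧ PMinus S ∧ ¬ PPerf S :=
  ideal_of_bold (bold_of_win fun h1 h2 h3 E Φ hΦ => Pool.Agent.NST.win h1 h2 h3 E Φ hΦ)

end Pool.Agent.Results.MP_0b3a63_lc.OmegaModel
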